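import Pool.Agent.helper47.MSW.SpecA
import Pool.Agent.helper47.MSW.SpecB

/-!
# Project msw, row SBD: the sum over the copies above a point
-/

set_option autoImplicit false

namespace Pool.Agent.MSW

open Equiv Finset Function MeasureTheory Pool.Agent.helper48.PP
open Pool.Agent.DSW (Pr Has GP wt)
open scoped ENNReal Classical

noncomputable section

/-- A geometric sum that starts at `a`. -/
theorem SBD_shift (u : ℝ≥0∞) (a : ℕ) :
    ∑' j : ℕ, (if a ≤ j then u ^ (j - a) else 0) = ∑' j : ℕ, u ^ j := by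
  have hinj : Function.Injective (fun j : ℕ => j + a) := fun x y h => by simpa using h
  have hsup : Function.support (fun j : ℕ => if a ≤ j then u ^ (j - a) else 0) ⊆
      Set.range (fun j : ℕ => j + a) := by
    intro j hj
    by_cases h : a ≤ j
    · exact ⟨j - a, Nat.sub_add_cancel h⟩
    · exact absurd (if_neg h) hj
  rw [← hinj.tsum_eq hsup]
  refine tsum_congr fun j => ?_
  simp

/-- The bound for one copy. -/
theorem SBD_pt (w H : ℕ) (a : Pt) (hta : ta H ≤ up (w + 1) H ^ (w + 1)) (hup : up (w + 1) H ≤ 1)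
    (hta1 : ta H ≤ 1) (C : Cp (w + 1)) :
    (if isC C ∧ geP a C then ta H ^ nm (tp C) else 0) ≤
      ta H ^ nm a * ((∏ j : Fin (w + 1), (if a.1 ≤ C.1 j then up (w + 1) H ^ (C.1 j - a.1) else 0)) *
        ∏ j : Fin (w + 1), (if a.2 ≤ C.2 j then up (w + 1) H ^ (C.2 j - a.2) else 0)) := by
  by_cases h : isC C ∧ geP a C
  · rw [if_pos h]
    obtain ⟨⟨hx, hy⟩, hge⟩ := h
    have h1 : ∀ j : Fin (w + 1), C.1 j ≤ C.1 (Fin.last w) := fun j => hx.monotone (Fin.le_last j)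
    have h2 : ∀ j : Fin (w + 1), C.2 j ≤ C.2 (Fin.last w) := fun j => hy.monotone (Fin.le_last j)
    have e1 : ∏ j : Fin (w + 1), (if a.1 ≤ C.1 j then up (w + 1) H ^ (C.1 j - a.1) else 0) =
        ∏ j : Fin (w + 1), up (w + 1) H ^ (C.1 j - a.1) :=
      Finset.prod_congr rfl fun j _ => if_pos (hge j).1
    have e2 : ∏ j : Fin (w + 1), (if a.2 ≤ C.2 j then up (w + 1) H ^ (C.2 j - a.2) else 0) =
        ∏ j : Fin (w + 1), up (w + 1) H ^ (C.2 j - a.2) :=
      Finset.prod_congr rfl fun j _ => if_pos (hge j).2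
    rw [e1, e2, ← Finset.prod_mul_distrib]
    have hN : nm (tp C) = nm a + (nm (tp C) - nm a) := by
      have := hge (Fin.last w)
      simp only [nm, tp]
      omega
    have hle : ∀ j : Fin (w + 1), up (w + 1) H ^ (nm (tp C) - nm a) ≤
        up (w + 1) H ^ (C.1 j - a.1) * up (w + 1) H ^ (C.2 j - a.2) := by
      intro j
      rw [← pow_add]
      refine pow_le_pow_of_le_one bot_le hup ?_
      have := hge j
      have := h1 j
      have := h2 j
      simp only [nm, tp]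
      omega
    calc ta H ^ nm (tp C) = ta H ^ nm a * ta H ^ (nm (tp C) - nm a) := by
          rw [← pow_add]; exact congrArg _ hN
      _ ≤ ta H ^ nm a * (up (w + 1) H ^ (w + 1)) ^ (nm (tp C) - nm a) := by
          gcongr
      _ = ta H ^ nm a * ∏ _j : Fin (w + 1), up (w + 1) H ^ (nm (tp C) - nm a) := by
          rw [Finset.prod_const, Finset.card_univ, Fintype.card_fin, ← pow_mul, ← pow_mul,
            mul_comm (w + 1)]
      _ ≤ ta H ^ nm a * ∏ j : Fin (w + 1),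
            (up (w + 1) H ^ (C.1 j - a.1) * up (w + 1) H ^ (C.2 j - a.2)) := by
          gcongr with j
          exact hle j
  · rw [if_neg h]
    exact bot_le

/-- The numerical estimate. -/
theorem SBD_num (w H : ℕ) (θ : ℝ) (hH : 1 ≤ H) (hθ : 0 ≤ θ) :
    ENNReal.ofReal (den θ H) ^ (w + 1) *
      ((2 * ((w + 1 : ℕ) : ℝ≥0∞) * ((H : ℝ≥0∞) + 1)) ^ (w + 1) *
        (2 * ((w + 1 : ℕ) : ℝ≥0∞) * ((H : ℝ≥0∞) + 1)) ^ (w + 1)) ≤
      ENNReal.ofReal ((16 * ((w : ℝ) + 1) ^ 2 * θ) ^ (w + 1)) := by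
  have hHr : (1 : ℝ) ≤ (H : ℝ) := by exact_mod_cast hH
  have hw : (0 : ℝ) ≤ (w : ℝ) := Nat.cast_nonneg w
  have h1 : (2 * ((w + 1 : ℕ) : ℝ≥0∞) * ((H : ℝ≥0∞) + 1)) =
      ENNReal.ofReal (2 * ((w : ℝ) + 1) * ((H : ℝ) + 1)) := by
    rw [ENNReal.ofReal_mul (by positivity), ENNReal.ofReal_mul (by positivity),
      ENNReal.ofReal_add (by positivity) (by positivity),
      ENNReal.ofReal_add (by positivity) (by positivity)]
    simp
  rw [h1, ← ENNReal.ofReal_pow (by unfold den; positivity), ← ENNReal.ofReal_pow (by positivity),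
    ← ENNReal.ofReal_mul (by positivity), ← ENNReal.ofReal_mul (by unfold den; positivity)]
  refine ENNReal.ofReal_le_ofReal ?_
  rw [← mul_pow, ← mul_pow]
  refine pow_le_pow_left₀ (by unfold den; positivity) ?_ _
  unfold den
  rw [div_mul_eq_mul_div, div_le_iff₀ (by positivity)]
  have h2 : ((H : ℝ) + 1) ^ 2 ≤ 4 * (H : ℝ) ^ 2 := by nlinarith
  have h3 : 0 ≤ θ * (4 * ((w : ℝ) + 1) ^ 2) := by positivity
  nlinarith [mul_le_mul_of_nonneg_left h2 h3]

theorem SBD (hPRG : PRG_stmt) (hGEW : GEW_stmt) : SBD_stmt := by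
  intro w H θ a hH hθ
  obtain ⟨⟨hta1, -⟩, -, -, hm, -, -⟩ := hGEW H hH
  obtain ⟨hta, hup, hgeo⟩ := hm (w + 1) (by omega)
  set D : ℝ≥0∞ := ENNReal.ofReal (den θ H) ^ (w + 1) with hD
  set u : ℝ≥0∞ := up (w + 1) H with hu
  calc (∑' C : Cp (w + 1), if isC C ∧ geP a C then D * ta H ^ nm (tp C) else 0)
      ≤ ∑' C : Cp (w + 1), (D * ta H ^ nm a) *
          ((∏ j : Fin (w + 1), (if a.1 ≤ C.1 j then u ^ (C.1 j - a.1) else 0)) *
            ∏ j : Fin (w + 1), (if a.2 ≤ C.2 j then u ^ (C.2 j - a.2) else 0)) := by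
        refine ENNReal.tsum_le_tsum fun C => ?_
        have h := SBD_pt w H a hta hup hta1 C
        have e : (if isC C ∧ geP a C then D * ta H ^ nm (tp C) else 0) =
            D * (if isC C ∧ geP a C then ta H ^ nm (tp C) else 0) := by
          split_ifs <;> simp
        rw [e, mul_assoc]
        gcongr
    _ = (D * ta H ^ nm a) * ∑' C : Cp (w + 1),
          ((∏ j : Fin (w + 1), (if a.1 ≤ C.1 j then u ^ (C.1 j - a.1) else 0)) *
            ∏ j : Fin (w + 1), (if a.2 ≤ C.2 j then u ^ (C.2 j - a.2) else 0)) :=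
        ENNReal.tsum_mul_left
    _ = (D * ta H ^ nm a) *
          ((∑' x : Fin (w + 1) → ℕ, ∏ j, (if a.1 ≤ x j then u ^ (x j - a.1) else 0)) *
            ∑' y : Fin (w + 1) → ℕ, ∏ j, (if a.2 ≤ y j then u ^ (y j - a.2) else 0)) := by
        congr 1
        rw [ENNReal.tsum_prod' (f := fun C : (Fin (w + 1) → ℕ) × (Fin (w + 1) → ℕ) =>
          ((∏ j : Fin (w + 1), (if a.1 ≤ C.1 j then u ^ (C.1 j - a.1) else 0)) *
            ∏ j : Fin (w + 1), (if a.2 ≤ C.2 j then u ^ (C.2 j - a.2) else 0)))]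
        rw [← ENNReal.tsum_mul_right]
        refine tsum_congr fun x => ?_
        show (∑' b : Fin (w + 1) → ℕ,
          (∏ j : Fin (w + 1), (if a.1 ≤ x j then u ^ (x j - a.1) else 0)) *
            ∏ j : Fin (w + 1), (if a.2 ≤ b j then u ^ (b j - a.2) else 0)) = _
        rw [ENNReal.tsum_mul_left]
    _ = (D * ta H ^ nm a) *
          ((2 * ((w + 1 : ℕ) : ℝ≥0∞) * ((H : ℝ≥0∞) + 1)) ^ (w + 1) *
            (2 * ((w + 1 : ℕ) : ℝ≥0∞) * ((H : ℝ≥0∞) + 1)) ^ (w + 1)) := by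
        have h1 := hPRG (Fin (w + 1)) ℕ (fun _ j => if a.1 ≤ j then u ^ (j - a.1) else 0)
        have h2 := hPRG (Fin (w + 1)) ℕ (fun _ j => if a.2 ≤ j then u ^ (j - a.2) else 0)
        simp only [SBD_shift, Finset.prod_const, Finset.card_univ, Fintype.card_fin] at h1 h2
        rw [h1, h2, hgeo]
    _ = ta H ^ nm a * (D * ((2 * ((w + 1 : ℕ) : ℝ≥0∞) * ((H : ℝ≥0∞) + 1)) ^ (w + 1) *
            (2 * ((w + 1 : ℕ) : ℝ≥0∞) * ((H : ℝ≥0∞) + 1)) ^ (w + 1))) := by
        rw [mul_comm D, mul_assoc]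
    _ ≤ ta H ^ nm a * ENNReal.ofReal ((16 * ((w : ℝ) + 1) ^ 2 * θ) ^ (w + 1)) := by
        have h := SBD_num w H θ hH hθ
        gcongr

end

end Pool.Agent.MSW
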